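import Pool.Agent.H297R2.LG.Defs
import Pool.Agent.H382P.PrimePart
import Pool.Agent.H382P.Mert
import Pool.Agent.H382R2.GaussMV

/-! Task 02 (KER): the kernel. -/

open Complex Filter Topology Set MeasureTheory

namespace LG

open SG (hh nn dd dl ord NZ)
open SP (RHs ZZ mu wt Mk Par Eb PS chi qq tt)

namespace KerAux

/-! ### Gaussian preliminaries -/

lemma gi (a y : ℝ) (ha : 0 < a) : Integrable (fun u : ℝ => Real.exp (-(a * (u - y) ^ 2))) := by
  have h := (integrable_exp_neg_mul_sq ha).comp_sub_right y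
  refine h.congr (Eventually.of_forall fun u => ?_)
  simp only
  congr 1
  ring

lemma gv (a y : ℝ) : ∫ u : ℝ, Real.exp (-(a * (u - y) ^ 2)) = Real.sqrt (Real.pi / a) := by
  have h := integral_gaussian a
  rw [← h, ← integral_sub_right_eq_self (fun u : ℝ => Real.exp (-a * u ^ 2)) y]
  congr 1
  ext u
  congr 1
  ring

/-- Gaussian tails -/
lemma tail (a y δ : ℝ) (ha : 0 < a) (S : Set ℝ) (hS : MeasurableSet S)
    (h : ∀ u ∈ S, δ ≤ (u - y) ^ 2) :
    ∫ u in S, Real.exp (-(a * (u - y) ^ 2)) ≤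
      Real.exp (-(a / 2 * δ)) * Real.sqrt (Real.pi / (a / 2)) := by
  have h1 : ∫ u in S, Real.exp (-(a * (u - y) ^ 2)) ≤
      ∫ u in S, Real.exp (-(a / 2 * δ)) * Real.exp (-(a / 2 * (u - y) ^ 2)) := by
    apply setIntegral_mono_on (gi a y ha).integrableOn
      (((gi (a / 2) y (by positivity)).const_mul _).integrableOn) hS
    intro u hu
    rw [← Real.exp_add]
    apply Real.exp_le_exp.2
    have := h u hu
    nlinarith
  refine h1.trans ?_
  rw [integral_const_mul, ← gv (a / 2) y]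
  apply mul_le_mul_of_nonneg_left _ (Real.exp_pos _).le
  exact setIntegral_le_integral (gi (a / 2) y (by positivity))
    (Eventually.of_forall fun u => (Real.exp_pos _).le)

lemma exp_neg_le (t : ℝ) (ht : 0 < t) : Real.exp (-t) ≤ 1 / t := by
  rw [Real.exp_neg, ← one_div]
  apply one_div_le_one_div_of_le ht
  linarith [Real.add_one_le_exp t]

lemma exp_neg_le2 (t : ℝ) (ht : 0 < t) : Real.exp (-t) ≤ 4 / t ^ 2 := by
  have h := exp_neg_le (t / 2) (by positivity)
  have h2 : Real.exp (-t) = Real.exp (-(t / 2)) ^ 2 := by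
    rw [← Real.exp_nat_mul]
    congr 1
    push_cast
    ring
  rw [h2]
  calc Real.exp (-(t / 2)) ^ 2 ≤ (1 / (t / 2)) ^ 2 := pow_le_pow_left₀ (Real.exp_pos _).le h 2
    _ = 4 / t ^ 2 := by field_simp; norm_num

/-! ### sinc -/

lemma sinc_int (x : ℝ) : Real.sinc x = ∫ t in (0 : ℝ)..1, Real.cos (x * t) := by
  by_cases hx : x = 0
  · subst hx
    simp
  · rw [Real.sinc_of_ne_zero hx, intervalIntegral.integral_comp_mul_left (fun t => Real.cos t) hx]
    rw [integral_cos]
    simp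
    field_simp

lemma sinc_lip (x y : ℝ) : |Real.sinc x - Real.sinc y| ≤ |x - y| := by
  rw [sinc_int, sinc_int, ← intervalIntegral.integral_sub
    (by apply Continuous.intervalIntegrable; fun_prop)
    (by apply Continuous.intervalIntegrable; fun_prop)]
  have h : ∀ t ∈ Set.uIoc (0 : ℝ) 1, ‖Real.cos (x * t) - Real.cos (y * t)‖ ≤ |x - y| := by
    intro t ht
    rw [Set.uIoc_of_le zero_le_one] at ht
    rw [Real.norm_eq_abs]
    have h1 : |Real.cos (x * t) - Real.cos (y * t)| ≤ |x * t - y * t| := by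
      have := Real.lipschitzWith_cos.dist_le_mul (x * t) (y * t)
      simpa [Real.dist_eq] using this
    refine h1.trans ?_
    rw [← sub_mul, abs_mul, abs_of_pos ht.1]
    exact mul_le_of_le_one_right (abs_nonneg _) ht.2
  have := intervalIntegral.norm_integral_le_of_norm_le_const h
  simpa using this

end KerAux

open KerAux

theorem gh_continuous (A c : ℝ) : Continuous (gh A c) := by
  unfold gh
  have := Real.continuous_sinc
  fun_prop

theorem gh_le (A c v : ℝ) (hc : 0 < c) : |gh A c v| ≤ c := by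
  unfold gh
  rw [abs_mul, abs_mul, abs_of_pos hc, Real.abs_exp]
  have h1 := Real.abs_sinc_le_one (Real.pi * c * v)
  have h2 : Real.exp (-(v / A) ^ 2 / 2) ≤ 1 := by
    rw [Real.exp_le_one_iff]
    have := sq_nonneg (v / A)
    linarith
  calc c * |Real.sinc (Real.pi * c * v)| * Real.exp (-(v / A) ^ 2 / 2)
      ≤ c * 1 * 1 := by gcongr
    _ = c := by ring

/-- Lipschitz bound of the Gaussian factor -/
lemma KerAux.gauss_lip (A : ℝ) (hA : 0 < A) (x y : ℝ) :
    |Real.exp (-(x / A) ^ 2 / 2) - Real.exp (-(y / A) ^ 2 / 2)| ≤ 1 / A * |x - y| := by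
  have hd : ∀ v : ℝ, HasDerivAt (fun v : ℝ => Real.exp (-(v / A) ^ 2 / 2))
      (Real.exp (-(v / A) ^ 2 / 2) * (-(v / A) * (1 / A))) v := by
    intro v
    have h1 : HasDerivAt (fun v : ℝ => v / A) (1 / A) v := (hasDerivAt_id v).div_const A
    have h2 : HasDerivAt (fun v : ℝ => -(v / A) ^ 2 / 2) (-(v / A) * (1 / A)) v := by
      have h3 := (h1.pow 2).neg.div_const 2
      have e : -(↑2 * (v / A) ^ (2 - 1) * (1 / A)) / 2 = -(v / A) * (1 / A) := by
        norm_num
        ring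
      rw [← e]
      exact h3
    exact h2.exp
  have hb : ∀ v : ℝ, ‖Real.exp (-(v / A) ^ 2 / 2) * (-(v / A) * (1 / A))‖ ≤ 1 / A := by
    intro v
    rw [norm_mul, norm_mul, norm_neg, Real.norm_eq_abs, Real.norm_eq_abs, Real.norm_eq_abs,
      Real.abs_exp, abs_of_pos (show 0 < 1 / A by positivity), ← mul_assoc]
    apply mul_le_of_le_one_left (by positivity)
    set t := |v / A| with ht
    have ht0 : 0 ≤ t := abs_nonneg _
    have h1 : (v / A) ^ 2 = t ^ 2 := by rw [ht, sq_abs]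
    have h3 : -(v / A) ^ 2 / 2 = -(t ^ 2 / 2) := by rw [h1]; ring
    rw [h3, Real.exp_neg, inv_mul_le_iff₀ (Real.exp_pos _)]
    have := Real.add_one_le_exp (t ^ 2 / 2)
    nlinarith [sq_nonneg (t - 1)]
  have := Convex.norm_image_sub_le_of_norm_hasDerivWithin_le (s := Set.univ)
    (fun v _ => (hd v).hasDerivWithinAt) (fun v _ => hb v) convex_univ (mem_univ y) (mem_univ x)
  simpa [Real.norm_eq_abs] using this

lemma KerAux.gh_lip' (A c : ℝ) (hA : 0 < A) (hc : 0 < c) (x y : ℝ) :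
    |gh A c x - gh A c y| ≤ (c * (Real.pi * c) + c / A) * |x - y| := by
  unfold gh
  have hπ := Real.pi_pos
  have e : c * Real.sinc (Real.pi * c * x) * Real.exp (-(x / A) ^ 2 / 2) -
      c * Real.sinc (Real.pi * c * y) * Real.exp (-(y / A) ^ 2 / 2) =
      c * ((Real.sinc (Real.pi * c * x) - Real.sinc (Real.pi * c * y)) *
        Real.exp (-(x / A) ^ 2 / 2)) +
      c * (Real.sinc (Real.pi * c * y) * (Real.exp (-(x / A) ^ 2 / 2) -
        Real.exp (-(y / A) ^ 2 / 2))) := by ring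
  rw [e]
  have h1 := sinc_lip (Real.pi * c * x) (Real.pi * c * y)
  have h1' : |Real.pi * c * x - Real.pi * c * y| = Real.pi * c * |x - y| := by
    rw [← mul_sub, abs_mul, abs_of_pos (by positivity)]
  rw [h1'] at h1
  have h2 : Real.exp (-(x / A) ^ 2 / 2) ≤ 1 := by
    rw [Real.exp_le_one_iff]
    have := sq_nonneg (x / A)
    linarith
  have h3 := KerAux.gauss_lip A hA x y
  have h4 := Real.abs_sinc_le_one (Real.pi * c * y)
  refine (abs_add_le _ _).trans ?_
  rw [abs_mul, abs_mul, abs_mul, abs_mul, abs_of_pos hc, Real.abs_exp]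
  calc c * (|Real.sinc (Real.pi * c * x) - Real.sinc (Real.pi * c * y)| *
        Real.exp (-(x / A) ^ 2 / 2)) +
      c * (|Real.sinc (Real.pi * c * y)| * |Real.exp (-(x / A) ^ 2 / 2) -
        Real.exp (-(y / A) ^ 2 / 2)|)
      ≤ c * ((Real.pi * c * |x - y|) * 1) + c * (1 * (1 / A * |x - y|)) := by gcongr
    _ = (c * (Real.pi * c) + c / A) * |x - y| := by ring

theorem gh_lip (A c : ℝ) (hA : 0 < A) (hc : 0 < c) : ∃ K : NNReal, LipschitzWith K (gh A c) := by
  have hπ := Real.pi_pos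
  refine ⟨⟨c * (Real.pi * c) + c / A, by positivity⟩, LipschitzWith.of_dist_le_mul fun x y => ?_⟩
  rw [Real.dist_eq, Real.dist_eq]
  exact KerAux.gh_lip' A c hA hc x y

theorem gK_continuous (A c : ℝ) : Continuous (gK A c) := by
  unfold gK
  apply intervalIntegral.continuous_parametric_intervalIntegral_of_continuous'
  fun_prop

lemma KerAux.gK_int (A x : ℝ) (hA : 0 < A) :
    Integrable (fun y : ℝ => A / Real.sqrt (2 * Real.pi) * Real.exp (-(A * (x - y)) ^ 2 / 2)) := by
  apply Integrable.const_mul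
  refine (gi (A ^ 2 / 2) x (by positivity)).congr (Eventually.of_forall fun y => ?_)
  simp only
  congr 1
  ring

lemma KerAux.gK_tot (A x : ℝ) (hA : 0 < A) :
    ∫ y : ℝ, A / Real.sqrt (2 * Real.pi) * Real.exp (-(A * (x - y)) ^ 2 / 2) = 1 := by
  rw [integral_const_mul]
  have h1 : ∫ y : ℝ, Real.exp (-(A * (x - y)) ^ 2 / 2) =
      ∫ y : ℝ, Real.exp (-(A ^ 2 / 2 * (y - x) ^ 2)) := by
    congr 1
    ext y
    congr 1
    ring
  rw [h1, gv]
  have h2 : Real.pi / (A ^ 2 / 2) = (2 * Real.pi) / A ^ 2 := by field_simp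
  rw [h2, Real.sqrt_div (by positivity), Real.sqrt_sq hA.le]
  have : 0 < Real.sqrt (2 * Real.pi) := Real.sqrt_pos.2 (by positivity)
  field_simp

theorem gK_bounds (A c x : ℝ) (hA : 0 < A) (hc : 0 < c) : 0 ≤ gK A c x ∧ gK A c x ≤ 1 := by
  have hπ := Real.pi_pos
  have hle : -(Real.pi * c) ≤ Real.pi * c := by
    have : 0 < Real.pi * c := by positivity
    linarith
  unfold gK
  constructor
  · apply intervalIntegral.integral_nonneg hle
    intro y _
    positivity
  · rw [← KerAux.gK_tot A x hA, intervalIntegral.integral_of_le hle]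
    exact setIntegral_le_integral (KerAux.gK_int A x hA)
      (Eventually.of_forall fun y => by positivity)

theorem gK_ge (c0 c ε : ℝ) (h0 : 0 < c0) (h1 : c0 < c) (hε : 0 < ε) : ∃ A0 : ℝ, 0 < A0 ∧
    ∀ A : ℝ, A0 ≤ A → ∀ x : ℝ, |x| ≤ Real.pi * c0 → 1 - ε ≤ gK A c x := by
  have hπ := Real.pi_pos
  set δ := Real.pi * (c - c0) with hδ
  have hδ0 : 0 < δ := by
    have : 0 < c - c0 := by linarith
    positivity
  refine ⟨Real.sqrt (8 / (δ ^ 2 * ε)), Real.sqrt_pos.2 (by positivity), ?_⟩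
  intro A hA x hx
  have hA0 : 0 < A := lt_of_lt_of_le (Real.sqrt_pos.2 (by positivity)) hA
  have hA2 : 8 / (δ ^ 2 * ε) ≤ A ^ 2 := by
    have := pow_le_pow_left₀ (Real.sqrt_nonneg _) hA 2
    rwa [Real.sq_sqrt (by positivity)] at this
  have hle : -(Real.pi * c) ≤ Real.pi * c := by
    have : 0 < Real.pi * c := by
      have : 0 < c := by linarith
      positivity
    linarith
  unfold gK
  rw [intervalIntegral.integral_of_le hle]
  have hsplit := integral_add_compl (measurableSet_Ioc (a := -(Real.pi * c)) (b := Real.pi * c))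
    (KerAux.gK_int A x hA0)
  rw [KerAux.gK_tot A x hA0] at hsplit
  have htail : ∫ y in (Ioc (-(Real.pi * c)) (Real.pi * c))ᶜ,
      A / Real.sqrt (2 * Real.pi) * Real.exp (-(A * (x - y)) ^ 2 / 2) ≤ ε := by
    rw [integral_const_mul]
    have e1 : ∀ y : ℝ, Real.exp (-(A * (x - y)) ^ 2 / 2) =
        Real.exp (-(A ^ 2 / 2 * (y - x) ^ 2)) := by
      intro y
      congr 1
      ring
    simp_rw [e1]
    have ht := tail (A ^ 2 / 2) x (δ ^ 2) (by positivity) (Ioc (-(Real.pi * c)) (Real.pi * c))ᶜ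
      measurableSet_Ioc.compl (by
        intro u hu
        rw [mem_compl_iff, mem_Ioc, not_and_or, not_lt, not_le] at hu
        have hx' := abs_le.1 hx
        rcases hu with hu | hu
        · have : δ ≤ x - u := by rw [hδ]; linarith [hx'.1]
          nlinarith
        · have : δ ≤ u - x := by rw [hδ]; linarith [hx'.2]
          nlinarith)
    have hs : Real.sqrt (Real.pi / (A ^ 2 / 2 / 2)) = Real.sqrt 2 * Real.sqrt (2 * Real.pi) / A := by
      rw [show Real.pi / (A ^ 2 / 2 / 2) = (2 * (2 * Real.pi)) / A ^ 2 by field_simp,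
        Real.sqrt_div (by positivity), Real.sqrt_sq hA0.le, Real.sqrt_mul (by norm_num)]
    rw [hs] at ht
    have hs2 : 0 < Real.sqrt (2 * Real.pi) := Real.sqrt_pos.2 (by positivity)
    have hsq2 : Real.sqrt 2 ≤ 2 := by
      rw [Real.sqrt_le_left (by norm_num)]
      norm_num
    calc A / Real.sqrt (2 * Real.pi) *
          ∫ y in (Ioc (-(Real.pi * c)) (Real.pi * c))ᶜ, Real.exp (-(A ^ 2 / 2 * (y - x) ^ 2))
        ≤ A / Real.sqrt (2 * Real.pi) * (Real.exp (-(A ^ 2 / 2 / 2 * δ ^ 2)) *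
          (Real.sqrt 2 * Real.sqrt (2 * Real.pi) / A)) :=
          mul_le_mul_of_nonneg_left ht (by positivity)
      _ = Real.sqrt 2 * Real.exp (-(A ^ 2 / 2 / 2 * δ ^ 2)) := by field_simp
      _ ≤ 2 * (1 / (A ^ 2 / 2 / 2 * δ ^ 2)) := by
          apply mul_le_mul hsq2 (exp_neg_le _ (by positivity)) (Real.exp_pos _).le (by norm_num)
      _ ≤ ε := by
          rw [div_le_iff₀ (by positivity)] at hA2
          rw [mul_one_div, div_le_iff₀ (by positivity)]
          nlinarith
  linarith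

/-! ### bounds for `bk` -/

lemma KerAux.gh_int (A c L y : ℝ) (hc : 0 < c) :
    Integrable (fun u : ℝ => gh A c (u / L) * Real.exp (-(u - y) ^ 2 / 2)) := by
  have h1 := SP.pp_gauss_integrable y
  refine (h1.const_mul c).mono' ?_ (Eventually.of_forall fun u => ?_)
  · apply Continuous.aestronglyMeasurable
    have := gh_continuous A c
    fun_prop
  · rw [norm_mul, Real.norm_eq_abs, Real.norm_eq_abs, Real.abs_exp]
    exact mul_le_mul_of_nonneg_right (gh_le A c _ hc) (Real.exp_pos _).le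

lemma KerAux.gh_set (A c L y : ℝ) (hc : 0 < c) (S : Set ℝ) :
    |∫ u in S, gh A c (u / L) * Real.exp (-(u - y) ^ 2 / 2)| ≤
      c * ∫ u in S, Real.exp (-(u - y) ^ 2 / 2) := by
  rw [← Real.norm_eq_abs, ← integral_const_mul]
  refine norm_integral_le_of_norm_le ((SP.pp_gauss_integrable y).const_mul c).integrableOn
    (Eventually.of_forall fun u => ?_)
  rw [norm_mul, Real.norm_eq_abs, Real.norm_eq_abs, Real.abs_exp]
  exact mul_le_mul_of_nonneg_right (gh_le A c _ hc) (Real.exp_pos _).le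

theorem bk_le (A c T x : ℝ) (hc : 0 < c) : |bk A c T x| ≤ c := by
  have hU : (0 : ℝ) ≤ Real.log T ^ 2 / 16 := by positivity
  unfold bk
  rw [abs_mul, abs_of_pos (by positivity), intervalIntegral.integral_of_le hU]
  have h1 := KerAux.gh_set A c (Real.log T) (Real.log x) hc (Ioc 0 (Real.log T ^ 2 / 16))
  have h2 : ∫ u in Ioc 0 (Real.log T ^ 2 / 16), Real.exp (-(u - Real.log x) ^ 2 / 2) ≤
      Real.sqrt (2 * Real.pi) := by
    rw [← SP.pp_gauss_int (Real.log x)]
    exact setIntegral_le_integral (SP.pp_gauss_integrable _)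
      (Eventually.of_forall fun u => (Real.exp_pos _).le)
  have hs : 0 < Real.sqrt (2 * Real.pi) := Real.sqrt_pos.2 (by positivity)
  calc 1 / Real.sqrt (2 * Real.pi) *
        |∫ u in Ioc 0 (Real.log T ^ 2 / 16), gh A c (u / Real.log T) *
          Real.exp (-(u - Real.log x) ^ 2 / 2)|
      ≤ 1 / Real.sqrt (2 * Real.pi) * (c * Real.sqrt (2 * Real.pi)) := by
        apply mul_le_mul_of_nonneg_left _ (by positivity)
        exact h1.trans (mul_le_mul_of_nonneg_left h2 hc.le)
    _ = c := by field_simp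

/-- a Gaussian average of `gh` -/
lemma KerAux.avg (A c L y : ℝ) (hA : 0 < A) (hc : 0 < c) (hL : 0 < L) :
    |(1 / Real.sqrt (2 * Real.pi)) * (∫ u, gh A c (u / L) * Real.exp (-(u - y) ^ 2 / 2)) -
      gh A c (y / L)| ≤ (c * (Real.pi * c) + c / A) * 2 / L := by
  have hπ := Real.pi_pos
  have hs : 0 < Real.sqrt (2 * Real.pi) := Real.sqrt_pos.mpr (by positivity)
  have hs1 : 1 / Real.sqrt (2 * Real.pi) ≤ 1 := SP.pp_inv_sqrt_le
  set K := c * (Real.pi * c) + c / A with hK
  have hK0 : 0 < K := by positivity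
  have hgi1 : Integrable (fun u : ℝ => |u - y| * Real.exp (-(u - y) ^ 2 / 2)) := by
    have h0 : Integrable (fun v : ℝ => |v| * Real.exp (-v ^ 2 / 2)) := by
      have := (integrable_mul_exp_neg_mul_sq (b := 1 / 2) (by norm_num)).norm
      refine this.congr (Eventually.of_forall fun v => ?_)
      simp only [norm_mul, Real.norm_eq_abs, Real.abs_exp]
      congr 2
      ring
    exact h0.comp_sub_right y
  have hval : ∫ u : ℝ, |u - y| * Real.exp (-(u - y) ^ 2 / 2) ≤ 2 := by
    rw [integral_sub_right_eq_self (fun v : ℝ => |v| * Real.exp (-v ^ 2 / 2)) y]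
    have h1 := integral_comp_abs (f := fun v => v * Real.exp (-v ^ 2 / 2))
    simp only [sq_abs] at h1
    rw [h1]
    have h2 : ∫ v in Set.Ioi (0:ℝ), v * Real.exp (-v ^ 2 / 2) = 1 := by
      have h3 : ∀ v ∈ Set.Ioi (0:ℝ), HasDerivAt (fun v : ℝ => -Real.exp (-v ^ 2 / 2))
          (v * Real.exp (-v ^ 2 / 2)) v := by
        intro v _
        have h4 : HasDerivAt (fun v : ℝ => -v ^ 2 / 2) (-v) v := by
          have := ((hasDerivAt_pow 2 v).neg).div_const 2
          convert! this using 1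
          ring
        have h5 := h4.exp.neg
        convert! h5 using 1
        ring
      have h6 := integral_Ioi_of_hasDerivAt_of_nonneg (a := (0:ℝ)) (l := 0)
        (g := fun v : ℝ => -Real.exp (-v ^ 2 / 2)) (g' := fun v => v * Real.exp (-v ^ 2 / 2))
        (by fun_prop) h3 (fun v hv => mul_nonneg (le_of_lt hv) (Real.exp_pos _).le) (by
          rw [← neg_zero]
          apply Tendsto.neg
          apply Real.tendsto_exp_atBot.comp
          have h7 : Tendsto (fun v : ℝ => v ^ 2 / 2) atTop atTop :=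
            (tendsto_pow_atTop two_ne_zero).atTop_div_const (by norm_num)
          have h8 := tendsto_neg_atTop_atBot.comp h7
          refine h8.congr fun v => ?_
          simp only [Function.comp]
          ring)
      rw [h6]
      simp
    rw [h2]
    norm_num
  have e2 : (1 / Real.sqrt (2 * Real.pi)) * (∫ u, gh A c (u / L) * Real.exp (-(u - y) ^ 2 / 2)) -
      gh A c (y / L) = (1 / Real.sqrt (2 * Real.pi)) *
        ∫ u, (gh A c (u / L) - gh A c (y / L)) * Real.exp (-(u - y) ^ 2 / 2) := by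
    have : ∫ u, (gh A c (u / L) - gh A c (y / L)) * Real.exp (-(u - y) ^ 2 / 2) =
        (∫ u, gh A c (u / L) * Real.exp (-(u - y) ^ 2 / 2)) -
          gh A c (y / L) * Real.sqrt (2 * Real.pi) := by
      rw [← SP.pp_gauss_int y, ← integral_const_mul, ← integral_sub (KerAux.gh_int A c L y hc)
        ((SP.pp_gauss_integrable y).const_mul _)]
      congr 1
      funext v
      ring
    rw [this]
    field_simp
  rw [e2, abs_mul, abs_of_pos (by positivity)]
  have h3 : |∫ u, (gh A c (u / L) - gh A c (y / L)) * Real.exp (-(u - y) ^ 2 / 2)| ≤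
      K / L * 2 := by
    rw [← Real.norm_eq_abs]
    have h4 : ‖∫ u, (gh A c (u / L) - gh A c (y / L)) * Real.exp (-(u - y) ^ 2 / 2)‖ ≤
        ∫ u, K / L * (|u - y| * Real.exp (-(u - y) ^ 2 / 2)) := by
      refine norm_integral_le_of_norm_le (hgi1.const_mul _) (Eventually.of_forall fun u => ?_)
      rw [norm_mul, Real.norm_eq_abs, Real.norm_eq_abs, Real.abs_exp, ← mul_assoc]
      apply mul_le_mul_of_nonneg_right _ (Real.exp_pos _).le
      have := KerAux.gh_lip' A c hA hc (u / L) (y / L)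
      refine this.trans (le_of_eq ?_)
      rw [← sub_div, abs_div, abs_of_pos hL]
      ring
    rw [integral_const_mul] at h4
    exact h4.trans (mul_le_mul_of_nonneg_left hval (by positivity))
  calc 1 / Real.sqrt (2 * Real.pi) *
        |∫ u, (gh A c (u / L) - gh A c (y / L)) * Real.exp (-(u - y) ^ 2 / 2)|
      ≤ 1 * (K / L * 2) := by gcongr
    _ = K * 2 / L := by ring

lemma KerAux.tail1 (y δ : ℝ) (S : Set ℝ) (hS : MeasurableSet S) (hδ : 0 < δ)
    (h : ∀ u ∈ S, δ ≤ (u - y) ^ 2) :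
    ∫ u in S, Real.exp (-(u - y) ^ 2 / 2) ≤ 16 / δ := by
  have h1 := tail (1 / 2) y δ (by norm_num) S hS h
  have e1 : ∀ u : ℝ, Real.exp (-(u - y) ^ 2 / 2) = Real.exp (-(1 / 2 * (u - y) ^ 2)) := by
    intro u
    congr 1
    ring
  simp_rw [e1]
  refine h1.trans ?_
  have h2 : Real.sqrt (Real.pi / (1 / 2 / 2)) ≤ 4 := by
    rw [Real.sqrt_le_left (by norm_num)]
    have := Real.pi_lt_four
    linarith
  have h3 := exp_neg_le (1 / 2 / 2 * δ) (by positivity)
  calc Real.exp (-(1 / 2 / 2 * δ)) * Real.sqrt (Real.pi / (1 / 2 / 2))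
      ≤ (1 / (1 / 2 / 2 * δ)) * 4 := by gcongr
    _ = 16 / δ := by field_simp; norm_num

/-- main term of the explicit formula -/
theorem gh_main (A c : ℝ) (hA : 0 < A) (hc : 0 < c) : ∃ C : ℝ, 0 < C ∧ ∀ L : ℝ, 4 ≤ L →
    |(2 / L) * ((1 / Real.sqrt (2 * Real.pi)) * ∫ u in (0 : ℝ)..(L ^ 2 / 16),
      gh A c (u / L) * (L * Real.exp (-u ^ 2 / 2))) - c| ≤ C / L := by
  have hπ := Real.pi_pos
  have hs : 0 < Real.sqrt (2 * Real.pi) := Real.sqrt_pos.mpr (by positivity)
  refine ⟨(c * (Real.pi * c) + c / A) * 2 + c * 2048, by positivity, ?_⟩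
  intro L hL
  have hL0 : 0 < L := by linarith
  have hU : (0 : ℝ) ≤ L ^ 2 / 16 := by positivity
  have h0 := KerAux.avg A c L 0 hA hc hL0
  have e0 : gh A c (0 / L) = c := by simp [gh]
  rw [e0] at h0
  simp only [sub_zero] at h0
  -- even integrand
  have hev : ∫ u : ℝ, gh A c (u / L) * Real.exp (-u ^ 2 / 2) =
      2 * ∫ u in Ioi (0 : ℝ), gh A c (u / L) * Real.exp (-u ^ 2 / 2) := by
    rw [← integral_comp_abs (f := fun u => gh A c (u / L) * Real.exp (-u ^ 2 / 2))]
    congr 1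
    ext u
    rw [sq_abs]
    congr 1
    unfold gh
    rcases abs_choice u with h | h
    · rw [h]
    · rw [h, show Real.pi * c * (-u / L) = -(Real.pi * c * (u / L)) by ring, Real.sinc_neg]
      congr 2
      ring
  have hi := KerAux.gh_int A c L 0 hc
  simp only [sub_zero] at hi
  have hsplit : ∫ u in Ioi (0 : ℝ), gh A c (u / L) * Real.exp (-u ^ 2 / 2) =
      (∫ u in (0 : ℝ)..(L ^ 2 / 16), gh A c (u / L) * Real.exp (-u ^ 2 / 2)) +
      ∫ u in Ioi (L ^ 2 / 16), gh A c (u / L) * Real.exp (-u ^ 2 / 2) := by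
    rw [intervalIntegral.integral_of_le hU,
      ← setIntegral_union (Ioc_disjoint_Ioi le_rfl) measurableSet_Ioi hi.integrableOn
        hi.integrableOn, Ioc_union_Ioi_eq_Ioi hU]
  have htail : |∫ u in Ioi (L ^ 2 / 16), gh A c (u / L) * Real.exp (-u ^ 2 / 2)| ≤
      c * 1024 / L := by
    have h1 := KerAux.gh_set A c L 0 hc (Ioi (L ^ 2 / 16))
    simp only [sub_zero] at h1
    have h2 := KerAux.tail1 0 ((L ^ 2 / 16) ^ 2) (Ioi (L ^ 2 / 16)) measurableSet_Ioi
      (by positivity) (by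
        intro u hu
        rw [sub_zero]
        exact pow_le_pow_left₀ hU (le_of_lt hu) 2)
    simp only [sub_zero] at h2
    refine h1.trans ?_
    calc c * ∫ u in Ioi (L ^ 2 / 16), Real.exp (-u ^ 2 / 2) ≤ c * (16 / (L ^ 2 / 16) ^ 2) := by
          gcongr
      _ = c * (4096 / (L ^ 3 * L)) := by
          congr 1
          field_simp
          norm_num
      _ ≤ c * (4096 / (4 * L)) := by
          gcongr
          nlinarith [sq_nonneg L, mul_pos hL0 hL0]
      _ = c * 1024 / L := by ring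
  have e3 : (2 / L) * ((1 / Real.sqrt (2 * Real.pi)) * ∫ u in (0 : ℝ)..(L ^ 2 / 16),
      gh A c (u / L) * (L * Real.exp (-u ^ 2 / 2))) =
      (1 / Real.sqrt (2 * Real.pi)) * (2 * ∫ u in (0 : ℝ)..(L ^ 2 / 16),
        gh A c (u / L) * Real.exp (-u ^ 2 / 2)) := by
    have : ∫ u in (0 : ℝ)..(L ^ 2 / 16), gh A c (u / L) * (L * Real.exp (-u ^ 2 / 2)) =
        L * ∫ u in (0 : ℝ)..(L ^ 2 / 16), gh A c (u / L) * Real.exp (-u ^ 2 / 2) := by
      rw [← intervalIntegral.integral_const_mul]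
      congr 1
      ext u
      ring
    rw [this]
    field_simp
  rw [e3]
  rw [hev, hsplit] at h0
  have hs1 : 1 / Real.sqrt (2 * Real.pi) ≤ 1 := SP.pp_inv_sqrt_le
  set I1 := ∫ u in (0 : ℝ)..(L ^ 2 / 16), gh A c (u / L) * Real.exp (-u ^ 2 / 2) with hI1
  set I2 := ∫ u in Ioi (L ^ 2 / 16), gh A c (u / L) * Real.exp (-u ^ 2 / 2) with hI2
  have e4 : 1 / Real.sqrt (2 * Real.pi) * (2 * I1) - c =
      (1 / Real.sqrt (2 * Real.pi) * (2 * (I1 + I2)) - c) -
        1 / Real.sqrt (2 * Real.pi) * (2 * I2) := by ring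
  rw [e4]
  refine (abs_sub _ _).trans ?_
  have h5 : |1 / Real.sqrt (2 * Real.pi) * (2 * I2)| ≤ 1 * (2 * (c * 1024 / L)) := by
    rw [abs_mul, abs_mul, abs_of_pos (show 0 < 1 / Real.sqrt (2 * Real.pi) by positivity),
      abs_of_pos (show (0:ℝ) < 2 by norm_num)]
    gcongr
  calc _ ≤ (c * (Real.pi * c) + c / A) * 2 / L + 1 * (2 * (c * 1024 / L)) := add_le_add h0 h5
    _ = ((c * (Real.pi * c) + c / A) * 2 + c * 2048) / L := by ring

/-! ### summability -/

lemma KerAux.bk_far (A c T : ℝ) (hc : 0 < c) (x : ℝ) (hx : 0 ≤ Real.log x) :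
    |bk A c T x| ≤ c * (Real.log T ^ 2 / 16) * Real.exp ((Real.log T ^ 2 / 16) ^ 2 / 2) *
      Real.exp (-(1 / 4) * (Real.log x) ^ 2) := by
  have hU : (0 : ℝ) ≤ Real.log T ^ 2 / 16 := by positivity
  set U := Real.log T ^ 2 / 16 with hUd
  unfold bk
  rw [← hUd, abs_mul, abs_of_pos (by positivity)]
  have h1 : ‖∫ u in (0 : ℝ)..U, gh A c (u / Real.log T) *
      Real.exp (-(u - Real.log x) ^ 2 / 2)‖ ≤
      (c * (Real.exp (U ^ 2 / 2) * Real.exp (-(1 / 4) * (Real.log x) ^ 2))) * |U - 0| := by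
    apply intervalIntegral.norm_integral_le_of_norm_le_const
    intro u hu
    rw [Set.uIoc_of_le hU] at hu
    rw [norm_mul, Real.norm_eq_abs, Real.norm_eq_abs, Real.abs_exp, ← Real.exp_add]
    apply mul_le_mul (gh_le A c _ hc) _ (Real.exp_pos _).le hc.le
    apply Real.exp_le_exp.2
    have h2 : u ^ 2 ≤ U ^ 2 := pow_le_pow_left₀ hu.1.le hu.2 2
    nlinarith [sq_nonneg (2 * u - Real.log x)]
  rw [sub_zero, abs_of_nonneg hU] at h1
  rw [← Real.norm_eq_abs]
  calc 1 / Real.sqrt (2 * Real.pi) * ‖∫ u in (0 : ℝ)..U, gh A c (u / Real.log T) *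
      Real.exp (-(u - Real.log x) ^ 2 / 2)‖
      ≤ 1 * ((c * (Real.exp (U ^ 2 / 2) * Real.exp (-(1 / 4) * (Real.log x) ^ 2))) * U) := by
        apply mul_le_mul SP.pp_inv_sqrt_le h1 (norm_nonneg _) zero_le_one
    _ = c * U * Real.exp (U ^ 2 / 2) * Real.exp (-(1 / 4) * (Real.log x) ^ 2) := by ring

lemma KerAux.lk_le (A c T : ℝ) (hc : 0 < c) (n : ℕ) :
    |lk A c T n| ≤ c * (Real.log T ^ 2 / 16) * Real.exp ((Real.log T ^ 2 / 16) ^ 2 / 2) *
      SP.ppG (1 / 4) n := by
  have h0 : 0 ≤ Real.log n := Real.log_natCast_nonneg n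
  have h1 := KerAux.bk_far A c T hc n h0
  unfold lk
  rw [abs_mul, abs_mul, abs_of_nonneg ArithmeticFunction.vonMangoldt_nonneg,
    abs_of_nonneg (by positivity : (0:ℝ) ≤ (n : ℝ) ^ (-(1 / 2) : ℝ))]
  unfold SP.ppG
  calc ArithmeticFunction.vonMangoldt n * (n : ℝ) ^ (-(1 / 2) : ℝ) * |bk A c T n|
      ≤ Real.log n * (n : ℝ) ^ (-(1 / 2) : ℝ) *
        (c * (Real.log T ^ 2 / 16) * Real.exp ((Real.log T ^ 2 / 16) ^ 2 / 2) *
      Real.exp (-(1 / 4) * (Real.log n) ^ 2)) := by
        apply mul_le_mul _ h1 (abs_nonneg _) (by positivity)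
        apply mul_le_mul_of_nonneg_right ArithmeticFunction.vonMangoldt_le_log (by positivity)
    _ = _ := by ring

theorem lk_summable (A c : ℝ) (hc : 0 < c) : ∃ C : ℝ, 0 < C ∧ ∀ T : ℝ, 10 ≤ T →
    Summable (fun n => |lk A c T n|) ∧ ∑' n, |lk A c T n| ≤ C * Real.exp (Real.log T ^ 4) := by
  have hG := SP.ppG_summable (1 / 4) (by norm_num)
  have hG0 : 0 ≤ ∑' n, SP.ppG (1 / 4) n := tsum_nonneg (SP.ppG_nonneg _)
  refine ⟨c * (∑' n, SP.ppG (1 / 4) n) + 1, by positivity, ?_⟩
  intro T hT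
  have hs : Summable (fun n => |lk A c T n|) :=
    Summable.of_nonneg_of_le (fun n => abs_nonneg _) (KerAux.lk_le A c T hc) (hG.mul_left _)
  refine ⟨hs, ?_⟩
  have h1 := hs.tsum_le_tsum (KerAux.lk_le A c T hc) (hG.mul_left _)
  rw [tsum_mul_left] at h1
  refine h1.trans ?_
  set G := ∑' n, SP.ppG (1 / 4) n with hGd
  have hL : 2 ≤ Real.log T := by
    rw [Real.le_log_iff_exp_le (by linarith)]
    have h2 : Real.exp 2 = Real.exp 1 * Real.exp 1 := by rw [← Real.exp_add]; norm_num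
    have := Real.exp_one_lt_d9
    have h3 := Real.exp_pos 1
    rw [h2]
    nlinarith
  set L := Real.log T with hLd
  have h3 : L ^ 2 / 16 ≤ Real.exp (L ^ 4 / 2) := by
    have := Real.add_one_le_exp (L ^ 4 / 2)
    nlinarith [sq_nonneg (L ^ 2 - 1)]
  have h4 : Real.exp ((L ^ 2 / 16) ^ 2 / 2) ≤ Real.exp (L ^ 4 / 2) := by
    apply Real.exp_le_exp.2
    nlinarith [sq_nonneg (L ^ 2)]
  calc c * (L ^ 2 / 16) * Real.exp ((L ^ 2 / 16) ^ 2 / 2) * G
      ≤ c * Real.exp (L ^ 4 / 2) * Real.exp (L ^ 4 / 2) * G := by gcongr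
    _ = c * G * Real.exp (L ^ 4) := by
        rw [mul_assoc c, ← Real.exp_add]
        ring_nf
    _ ≤ (c * G + 1) * Real.exp (L ^ 4) := by
        apply mul_le_mul_of_nonneg_right _ (Real.exp_pos _).le
        linarith

theorem bk_approx (A c : ℝ) (hA : 0 < A) (hc : 0 < c) : ∃ C T0 : ℝ, 0 < C ∧ 10 ≤ T0 ∧
    ∀ T : ℝ, T0 ≤ T → ∀ x : ℝ, T ^ (1 / Real.sqrt (Real.log T)) ≤ x → x ≤ T ^ (2 : ℝ) →
    |bk A c T x - gh A c (Real.log x / Real.log T)| ≤ C / Real.log T := by
  have hπ := Real.pi_pos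
  refine ⟨(c * (Real.pi * c) + c / A) * 2 + c * 16, Real.exp 64, by positivity, ?_, ?_⟩
  · have := Real.add_one_le_exp (64 : ℝ)
    linarith
  intro T hT x hx1 hx2
  have hT0 : 0 < T := lt_of_lt_of_le (Real.exp_pos _) hT
  have hL : 64 ≤ Real.log T := by
    rw [Real.le_log_iff_exp_le hT0]
    exact hT
  set L := Real.log T with hLd
  have hL0 : 0 < L := by linarith
  have hs := Real.sqrt_pos.2 hL0
  have hss : Real.sqrt L * Real.sqrt L = L := Real.mul_self_sqrt hL0.le
  have hx0 : 0 < x := lt_of_lt_of_le (Real.rpow_pos_of_pos hT0 _) hx1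
  have hy1 : Real.sqrt L ≤ Real.log x := by
    have h := Real.log_le_log (Real.rpow_pos_of_pos hT0 _) hx1
    rw [Real.log_rpow hT0, ← hLd] at h
    have : 1 / Real.sqrt L * L = Real.sqrt L := by
      field_simp
      rw [Real.sq_sqrt hL0.le]
    rwa [this] at h
  have hy2 : Real.log x ≤ 2 * L := by
    have h := Real.log_le_log hx0 hx2
    rwa [Real.log_rpow hT0, ← hLd] at h
  set y := Real.log x with hyd
  have hU : (0 : ℝ) ≤ L ^ 2 / 16 := by positivity
  have hav := KerAux.avg A c L y hA hc hL0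
  have hi := KerAux.gh_int A c L y hc
  have hsplit := integral_add_compl (measurableSet_Ioc (a := (0:ℝ)) (b := L ^ 2 / 16)) hi
  have htail : |∫ u in (Ioc (0:ℝ) (L ^ 2 / 16))ᶜ, gh A c (u / L) *
      Real.exp (-(u - y) ^ 2 / 2)| ≤ c * (16 / L) := by
    refine (KerAux.gh_set A c L y hc _).trans ?_
    apply mul_le_mul_of_nonneg_left _ hc.le
    apply KerAux.tail1 y L _ measurableSet_Ioc.compl hL0
    intro u hu
    rw [mem_compl_iff, mem_Ioc, not_and_or, not_lt, not_le] at hu
    rcases hu with hu | hu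
    · have h1 : Real.sqrt L ≤ y - u := by linarith
      nlinarith
    · have h1 : 2 * L ≤ u - y := by nlinarith
      nlinarith
  unfold bk
  rw [← hLd, ← hyd, intervalIntegral.integral_of_le hU]
  set I1 := ∫ u in Ioc (0:ℝ) (L ^ 2 / 16), gh A c (u / L) * Real.exp (-(u - y) ^ 2 / 2) with hI1
  set I2 := ∫ u in (Ioc (0:ℝ) (L ^ 2 / 16))ᶜ, gh A c (u / L) * Real.exp (-(u - y) ^ 2 / 2)
    with hI2
  rw [← hsplit] at hav
  have e4 : 1 / Real.sqrt (2 * Real.pi) * I1 - gh A c (y / L) =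
      (1 / Real.sqrt (2 * Real.pi) * (I1 + I2) - gh A c (y / L)) -
        1 / Real.sqrt (2 * Real.pi) * I2 := by ring
  rw [e4]
  refine (abs_sub _ _).trans ?_
  have h5 : |1 / Real.sqrt (2 * Real.pi) * I2| ≤ 1 * (c * (16 / L)) := by
    rw [abs_mul, abs_of_pos (show 0 < 1 / Real.sqrt (2 * Real.pi) by
      have : 0 < Real.sqrt (2 * Real.pi) := Real.sqrt_pos.2 (by positivity)
      positivity)]
    exact mul_le_mul SP.pp_inv_sqrt_le htail (abs_nonneg _) zero_le_one
  calc _ ≤ (c * (Real.pi * c) + c / A) * 2 / L + 1 * (c * (16 / L)) := add_le_add hav h5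
    _ = ((c * (Real.pi * c) + c / A) * 2 + c * 16) / L := by ring

/-! ### the Fourier representation of `gK` -/

lemma KerAux.cos_int (a x v : ℝ) :
    ∫ y in (-a)..a, Real.cos ((x - y) * v) = 2 * a * Real.sinc (a * v) * Real.cos (x * v) := by
  by_cases hv : v = 0
  · subst hv
    simp
    ring
  by_cases ha : a = 0
  · subst ha
    simp
  have h1 : ∀ y ∈ Set.uIcc (-a) a, HasDerivAt (fun y : ℝ => -Real.sin ((x - y) * v) / v)
      (Real.cos ((x - y) * v)) y := by
    intro y _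
    have h2 : HasDerivAt (fun y : ℝ => (x - y) * v) (-v) y := by
      have := ((hasDerivAt_id y).const_sub x).mul_const v
      simpa using this
    have h3 := (h2.sin.neg).div_const v
    convert! h3 using 1
    field_simp
  rw [intervalIntegral.integral_eq_sub_of_hasDerivAt h1
    (by apply Continuous.intervalIntegrable; fun_prop)]
  rw [Real.sinc_of_ne_zero (mul_ne_zero ha hv)]
  have e1 : (x - a) * v = x * v - a * v := by ring
  have e2 : (x - -a) * v = x * v + a * v := by ring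
  rw [e1, e2, Real.sin_sub, Real.sin_add]
  field_simp
  ring

lemma KerAux.gauss_four (A w : ℝ) (hA : 0 < A) :
    ∫ v : ℝ, Real.exp (-(v / A) ^ 2 / 2) * Real.cos (w * v) =
      A * Real.sqrt (2 * Real.pi) * Real.exp (-(A * w) ^ 2 / 2) := by
  have h := SG.MVaux.ek_val A 0 w hA
  have h1 := congrArg Complex.re h
  rw [← RCLike.re_eq_complex_re, ← integral_re (SG.MVaux.ek_int A 0 w hA)] at h1
  have e1 : ∀ t : ℝ, RCLike.re ((Real.exp (-(t - 0) ^ 2 / (2 * A ^ 2)) : ℂ) * cexp (I * w * t)) =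
      Real.exp (-(t / A) ^ 2 / 2) * Real.cos (w * t) := by
    intro t
    rw [RCLike.re_eq_complex_re, Complex.re_ofReal_mul]
    have e2 : (I * w * t : ℂ) = ((w * t : ℝ) : ℂ) * I := by push_cast; ring
    rw [e2, Complex.exp_ofReal_mul_I_re]
    congr 2
    rw [sub_zero]
    field_simp
  simp_rw [e1] at h1
  rw [h1]
  have e3 : (I * (w : ℂ) * ((0 : ℝ) : ℂ)) = 0 := by simp
  rw [e3, Complex.exp_zero, one_mul, ← Complex.ofReal_mul, RCLike.re_eq_complex_re,
    Complex.ofReal_re]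
  congr 2
  ring

lemma KerAux.gh_cos_int (A c x : ℝ) (hA : 0 < A) (hc : 0 < c) :
    Integrable (fun v : ℝ => gh A c v * Real.cos (x * v)) := by
  have h1 : Integrable (fun v : ℝ => Real.exp (-(v / A) ^ 2 / 2)) := by
    refine (gi (1 / (2 * A ^ 2)) 0 (by positivity)).congr (Eventually.of_forall fun v => ?_)
    simp only
    congr 1
    field_simp
    ring
  refine (h1.const_mul c).mono' ?_ (Eventually.of_forall fun v => ?_)
  · apply Continuous.aestronglyMeasurable
    have := gh_continuous A c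
    fun_prop
  · unfold gh
    rw [norm_mul, norm_mul, norm_mul, Real.norm_eq_abs, Real.norm_eq_abs, Real.norm_eq_abs,
      Real.norm_eq_abs, Real.abs_exp, abs_of_pos hc]
    have h2 := Real.abs_sinc_le_one (Real.pi * c * v)
    have h3 := Real.abs_cos_le_one (x * v)
    calc c * |Real.sinc (Real.pi * c * v)| * Real.exp (-(v / A) ^ 2 / 2) * |Real.cos (x * v)|
        ≤ c * 1 * Real.exp (-(v / A) ^ 2 / 2) * 1 := by gcongr
      _ = c * Real.exp (-(v / A) ^ 2 / 2) := by ring

lemma KerAux.gK_four (A c x : ℝ) (hA : 0 < A) (hc : 0 < c) :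
    gK A c x = ∫ v : ℝ, gh A c v * Real.cos (x * v) := by
  have hπ := Real.pi_pos
  have hs : 0 < Real.sqrt (2 * Real.pi) := Real.sqrt_pos.mpr (by positivity)
  have hle : -(Real.pi * c) ≤ Real.pi * c := by
    have : 0 < Real.pi * c := by positivity
    linarith
  have h1i : Integrable (fun v : ℝ => Real.exp (-(v / A) ^ 2 / 2)) := by
    refine (gi (1 / (2 * A ^ 2)) 0 (by positivity)).congr (Eventually.of_forall fun v => ?_)
    simp only
    congr 1
    field_simp
    ring
  have e1 : ∀ y : ℝ, A / Real.sqrt (2 * Real.pi) * Real.exp (-(A * (x - y)) ^ 2 / 2) =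
      1 / (2 * Real.pi) * ∫ v : ℝ, Real.exp (-(v / A) ^ 2 / 2) * Real.cos ((x - y) * v) := by
    intro y
    rw [KerAux.gauss_four A (x - y) hA]
    have h2 : Real.sqrt (2 * Real.pi) * Real.sqrt (2 * Real.pi) = 2 * Real.pi :=
      Real.mul_self_sqrt (by positivity)
    rw [div_mul_eq_mul_div, div_eq_iff hs.ne']
    have h3 : 1 / (2 * Real.pi) * (A * Real.sqrt (2 * Real.pi) *
        Real.exp (-(A * (x - y)) ^ 2 / 2)) * Real.sqrt (2 * Real.pi) =
        (Real.sqrt (2 * Real.pi) * Real.sqrt (2 * Real.pi)) / (2 * Real.pi) *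
          (A * Real.exp (-(A * (x - y)) ^ 2 / 2)) := by ring
    rw [h3, h2, div_self (by positivity), one_mul]
  unfold gK
  simp_rw [e1]
  rw [intervalIntegral.integral_const_mul, intervalIntegral.integral_of_le hle]
  rw [integral_integral_swap]
  · rw [← integral_const_mul]
    congr 1
    ext v
    rw [integral_const_mul, ← intervalIntegral.integral_of_le hle, KerAux.cos_int]
    unfold gh
    field_simp
  · have hfin : IsFiniteMeasure (volume.restrict (Ioc (-(Real.pi * c)) (Real.pi * c))) :=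
      ⟨by rw [Measure.restrict_apply_univ]; exact measure_Ioc_lt_top⟩
    have hm : Integrable (fun z : ℝ × ℝ => (1 : ℝ) * Real.exp (-(z.2 / A) ^ 2 / 2))
        ((volume.restrict (Ioc (-(Real.pi * c)) (Real.pi * c))).prod volume) :=
      (integrable_const (1 : ℝ)).mul_prod h1i
    refine hm.mono' ?_ (Eventually.of_forall fun z => ?_)
    · apply Continuous.aestronglyMeasurable
      unfold Function.uncurry
      fun_prop
    · simp only [Function.uncurry, norm_mul, Real.norm_eq_abs, Real.abs_exp, one_mul]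
      exact mul_le_of_le_one_right (Real.exp_pos _).le (Real.abs_cos_le_one _)

theorem gK_approx (A c : ℝ) (hA : 0 < A) (hc : 0 < c) : ∃ C : ℝ, 0 < C ∧ ∀ L x : ℝ, 1 ≤ L →
    |gK A c (L * x) - (2 / L) * ∫ u in (0 : ℝ)..(L ^ 2 / 16), gh A c (u / L) * Real.cos (u * x)| ≤
      C / L ^ 2 := by
  have hπ := Real.pi_pos
  refine ⟨2 * (c * (4 * (2 * A ^ 2) * 256 * Real.sqrt (Real.pi / (1 / (2 * A ^ 2) / 2)))),
    by positivity, ?_⟩
  intro L x hL
  have hL0 : 0 < L := by linarith
  rw [KerAux.gK_four A c _ hA hc]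
  have hi := KerAux.gh_cos_int A c (L * x) hA hc
  have hev : ∫ v : ℝ, gh A c v * Real.cos (L * x * v) =
      2 * ∫ v in Ioi (0 : ℝ), gh A c v * Real.cos (L * x * v) := by
    rw [← integral_comp_abs (f := fun v => gh A c v * Real.cos (L * x * v))]
    congr 1
    ext v
    unfold gh
    rcases abs_choice v with h | h
    · rw [h]
    · rw [h, show Real.pi * c * -v = -(Real.pi * c * v) by ring, Real.sinc_neg,
        show L * x * -v = -(L * x * v) by ring, Real.cos_neg]
      congr 3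
      ring
  have hU : (0 : ℝ) ≤ L / 16 := by positivity
  have hsplit : ∫ v in Ioi (0 : ℝ), gh A c v * Real.cos (L * x * v) =
      (∫ v in (0 : ℝ)..(L / 16), gh A c v * Real.cos (L * x * v)) +
      ∫ v in Ioi (L / 16), gh A c v * Real.cos (L * x * v) := by
    rw [intervalIntegral.integral_of_le hU,
      ← setIntegral_union (Ioc_disjoint_Ioi le_rfl) measurableSet_Ioi hi.integrableOn
        hi.integrableOn, Ioc_union_Ioi_eq_Ioi hU]
  have hsub : (2 / L) * ∫ u in (0 : ℝ)..(L ^ 2 / 16), gh A c (u / L) * Real.cos (u * x) =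
      2 * ∫ v in (0 : ℝ)..(L / 16), gh A c v * Real.cos (L * x * v) := by
    have h := intervalIntegral.integral_comp_div (fun v => gh A c v * Real.cos (L * x * v))
      hL0.ne' (a := 0) (b := L ^ 2 / 16)
    rw [zero_div, show L ^ 2 / 16 / L = L / 16 by field_simp] at h
    have e : ∀ u : ℝ, gh A c (u / L) * Real.cos (u * x) =
        gh A c (u / L) * Real.cos (L * x * (u / L)) := by
      intro u
      congr 2
      field_simp
    simp_rw [e]
    rw [h, smul_eq_mul]
    field_simp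
  rw [hsub, hev, hsplit]
  have e5 : 2 * ((∫ v in (0 : ℝ)..(L / 16), gh A c v * Real.cos (L * x * v)) +
      ∫ v in Ioi (L / 16), gh A c v * Real.cos (L * x * v)) -
      2 * ∫ v in (0 : ℝ)..(L / 16), gh A c v * Real.cos (L * x * v) =
      2 * ∫ v in Ioi (L / 16), gh A c v * Real.cos (L * x * v) := by ring
  rw [e5, abs_mul, abs_of_pos (show (0:ℝ) < 2 by norm_num)]
  have hg0 : Integrable (fun v : ℝ => Real.exp (-(1 / (2 * A ^ 2) * (v - 0) ^ 2))) :=
    gi (1 / (2 * A ^ 2)) 0 (by positivity)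
  have h6 : |∫ v in Ioi (L / 16), gh A c v * Real.cos (L * x * v)| ≤
      c * ∫ v in Ioi (L / 16), Real.exp (-(1 / (2 * A ^ 2) * (v - 0) ^ 2)) := by
    rw [← Real.norm_eq_abs, ← integral_const_mul]
    refine norm_integral_le_of_norm_le (hg0.const_mul c).integrableOn
      (Eventually.of_forall fun v => ?_)
    unfold gh
    rw [norm_mul, norm_mul, norm_mul, Real.norm_eq_abs, Real.norm_eq_abs, Real.norm_eq_abs,
      Real.norm_eq_abs, Real.abs_exp, abs_of_pos hc]
    have h2 := Real.abs_sinc_le_one (Real.pi * c * v)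
    have h3 := Real.abs_cos_le_one (L * x * v)
    have h4 : Real.exp (-(v / A) ^ 2 / 2) = Real.exp (-(1 / (2 * A ^ 2) * (v - 0) ^ 2)) := by
      congr 1
      field_simp
      ring
    rw [h4]
    calc c * |Real.sinc (Real.pi * c * v)| * Real.exp (-(1 / (2 * A ^ 2) * (v - 0) ^ 2)) *
          |Real.cos (L * x * v)|
        ≤ c * 1 * Real.exp (-(1 / (2 * A ^ 2) * (v - 0) ^ 2)) * 1 := by gcongr
      _ = c * Real.exp (-(1 / (2 * A ^ 2) * (v - 0) ^ 2)) := by ring
  have h7 := tail (1 / (2 * A ^ 2)) 0 ((L / 16) ^ 2) (by positivity) (Ioi (L / 16))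
    measurableSet_Ioi (by
      intro u hu
      rw [sub_zero]
      exact pow_le_pow_left₀ hU (le_of_lt hu) 2)
  have h8 := exp_neg_le (1 / (2 * A ^ 2) / 2 * (L / 16) ^ 2) (by positivity)
  have h9 : 1 / (1 / (2 * A ^ 2) / 2 * (L / 16) ^ 2) = 2 * (2 * A ^ 2) * 256 / L ^ 2 := by
    field_simp
    norm_num
  calc 2 * |∫ v in Ioi (L / 16), gh A c v * Real.cos (L * x * v)|
      ≤ 2 * (c * (Real.exp (-(1 / (2 * A ^ 2) / 2 * (L / 16) ^ 2)) *
          Real.sqrt (Real.pi / (1 / (2 * A ^ 2) / 2)))) := by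
        apply mul_le_mul_of_nonneg_left _ (by norm_num)
        exact h6.trans (mul_le_mul_of_nonneg_left h7 hc.le)
    _ ≤ 2 * (c * ((4 * (2 * A ^ 2) * 256 / L ^ 2) *
          Real.sqrt (Real.pi / (1 / (2 * A ^ 2) / 2)))) := by
        apply mul_le_mul_of_nonneg_left _ (by norm_num)
        apply mul_le_mul_of_nonneg_left _ hc.le
        apply mul_le_mul_of_nonneg_right _ (Real.sqrt_nonneg _)
        rw [h9] at h8
        refine h8.trans ?_
        apply div_le_div_of_nonneg_right _ (by positivity)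
        nlinarith [sq_nonneg A]
    _ = _ := by ring

end LG
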